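import Pool.Agent.R429.DM.UpE
import Pool.Agent.TH941.Newform

/-!
# The zeros of the `L`-function of an elliptic curve and the exact exponents of weighted Euler products

Let `E : y² = x³ + a x + b` be an elliptic curve over `ℚ`, `a, b ∈ ℤ`, let `F` be the entire continuation of
its incomplete `L`-series, `f` its newform and `N_p` the number of affine points modulo `p`, so that
`#E(𝔽_p) = N_p + 1`. Let `K` be a real function on `(0, 1]` which is not almost everywhere `0`, let
`β ∈ (0, 1]` be the essential supremum of its support and let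

`S_K(X) = ∑_{p ≤ X, p ∤ 2Δ} K (log p / log X) log (#E(𝔽_p)/p)`,

the logarithm of the Euler product at the central point with the weights `K(log p / log X)`. (`K = 1`: the original
product `P(X)` of Birch and Swinnerton-Dyer; `K(v) = (1 - v)^k`: the Riesz means; `K` the indicator function of
`(α, β]`: the quotient `P(X^β)/P(X^α)`; `K` a step function: a product of powers of `P(X^{β_i})`.)

It is shown, for every elliptic curve, for all such `K` and every `y ≥ 0`:

* (`K` bounded and measurable) if `S_K(X) = O(X^(βy + ε))` for all `ε > 0` and ALMOST all `X`, then `F` has no zeros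
  with `Re s > 1 + y`;
* (`K` of bounded variation, `K = 0` on `(β, 1]`) the converse holds for ALL `X`: `F` has no zeros with
  `Re s > 1 + y` if and only if `S_K(X) = O(X^(βy + ε))` for all `ε > 0`, if and only if this holds for almost all
  `X`. Therefore, if `1 + Θ` is the supremum of the real parts of the zeros of `F` with `Re s ≥ 1`, then
  `βΘ` is the EXACT exponent of growth of `S_K`, whatever `K` is: no choice of the weight makes the contributions of
  the zeros off the line cancel;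
* (`K` of bounded variation, not almost everywhere `0`) the Riemann hypothesis for `E` (no zeros with `Re s > 1`;
  by the functional equation the nontrivial zeros are symmetric about `Re s = 1`) holds if and only if
  `S_K(X) = O(X^ε)` for all `ε > 0`. So any ONE of these sums decides the Riemann hypothesis, for instance
  `P(X^β)/P(X^α)` with any `0 ≤ α < β ≤ 1`.

Proof. From growth to zeros: see `Pool.Agent.R429.DM`. The Laplace transform of `S_K(e^T)` is a multiplicative
convolution of `K` with the logarithmic derivative of `F`; a zero with `Re s > 1 + y` causes a jump `2πi m K` of this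
convolution along a ray, so that `K = 0` almost everywhere in a left neighbourhood of `β`. (The Mellin transform of `K`
may have zeros; the argument does not divide by it.) From zeros to growth: in a zero-free half plane
`Re s > 1 + y` the logarithm of `F` is `O(|s|^ε)` (Borel-Carathéodory and the convexity bound from the newform),
Perron's formula for a difference quotient of length `X^(1/2)` and a shift of the contour give
`log P(X) = O(X^(y + ε))` (the sharp sum and the difference quotient differ by `O(1)` as the coefficients are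
`O(p^(-1/2))`), and partial summation gives the bound for every weight of bounded variation.
-/

set_option autoImplicit false

namespace Pool.Agent.Results.MP_553913_nt.ExactExponents

open Pool.Agent.W263.BSD Filter Topology Classical MeasureTheory Set
open CongruenceSubgroup UpperHalfPlane
open scoped MatrixGroups

/-- `S_K(X)`: the sum of `K (log p / log X) log ((N_p + 1) / p)` over the primes `p ≤ X`, `p ∤ 2Δ`. -/
noncomputable def weighted (a b : ℤ) (K : ℝ → ℝ) (X : ℝ) : ℝ :=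
  ∑ p ∈ (Finset.range (⌊X⌋₊ + 1)).filter (GoodPrime a b),
    K (Real.log p / Real.log X) * Real.log (((pointCount a b p : ℝ) + 1) / p)

/-- `F` has no zeros with `Re s > 1 + y`. -/
def NoZeros (F : ℂ → ℂ) (y : ℝ) : Prop := ∀ s : ℂ, 1 + y < s.re → F s ≠ 0

/-- The statement `P` holds for almost all (Lebesgue measure) sufficiently large real numbers. -/
def AlmostAllLarge (P : ℝ → Prop) : Prop := ∃ X₀ : ℝ, ∀ᵐ X : ℝ, X₀ ≤ X → P X

/-- `K` is almost everywhere `0` on `(α, β]`. -/
def Vanishes (K : ℝ → ℝ) (α β : ℝ) : Prop := ∀ᵐ u : ℝ, u ∈ Ioc α β → K u = 0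

/-- The `n`-th Fourier coefficient of `f`. -/
noncomputable def coef {N : ℕ} (f : CuspForm (Gamma0 N : Subgroup (GL (Fin 2) ℝ)) 2) (n : ℕ) : ℂ :=
  (qExpansion 1 f).coeff n

/-- `f ∈ S_2(Γ₀(N))` is the newform of the elliptic curve `E : y² = x³ + a x + b` of conductor `N`: the
Fourier coefficients `c(n)` of `f` are real with `c(1) = 1`, they satisfy the Hecke relations
`c(mn) = c(m) c(n)` for coprime `m`, `n` and `c(p^(j+2)) = c(p) c(p^(j+1)) - p c(p^j)` (without the last
term if `p ∣ N`), `c(p) = a_p = p - N_p` (`N_p` affine points) for all primes `p ∤ 2Δ`, `|c(p)| ≤ 2 √p` for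
all `p ∤ N` (Hasse) and `c(p) = 0, 1, -1` for `p ∣ N`. -/
structure IsNewformOf (a b : ℤ) (N : ℕ) (f : CuspForm (Gamma0 N : Subgroup (GL (Fin 2) ℝ)) 2) :
    Prop where
  one : coef f 1 = 1
  real : ∀ n, (coef f n).im = 0
  mul : ∀ m n : ℕ, Nat.Coprime m n → coef f (m * n) = coef f m * coef f n
  pow : ∀ p j : ℕ, p.Prime → coef f (p ^ (j + 2)) = coef f p * coef f (p ^ (j + 1)) -
      (if p ∣ N then 0 else (p : ℂ) * coef f (p ^ j))
  points : ∀ p : ℕ, GoodPrime a b p → coef f p = (p : ℂ) - (pointCount a b p : ℂ)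
  good : ∀ p : ℕ, p.Prime → ¬ p ∣ N → ‖coef f p‖ ≤ 2 * Real.sqrt p
  bad : ∀ p : ℕ, p.Prime → p ∣ N → coef f p = 0 ∨ coef f p = 1 ∨ coef f p = -1

theorem hecke {a b : ℤ} {N : ℕ} {f : CuspForm (Gamma0 N : Subgroup (GL (Fin 2) ℝ)) 2}
    (hf : IsNewformOf a b N f) : Pool.Agent.TH941.Hecke f where
  one := hf.one
  real := hf.real
  mul := hf.mul
  pow := hf.pow
  good := hf.good
  bad := fun p hp h => by
    rcases hf.bad p hp h with h1 | h1 | h1
    · have h2 : ‖coef f p‖ ≤ 1 := by rw [h1]; simp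
      exact h2
    · have h2 : ‖coef f p‖ ≤ 1 := by rw [h1]; simp
      exact h2
    · have h2 : ‖coef f p‖ ≤ 1 := by rw [h1]; simp
      exact h2

theorem vanishes_iff (K : ℝ → ℝ) (α β : ℝ) : Vanishes K α β ↔ ∀ᵐ u : ℝ, u ∈ Ioo α β → K u = 0 := by
  unfold Vanishes
  constructor
  · intro h
    filter_upwards [h] with u h1 h2
    exact h1 ⟨h2.1, h2.2.le⟩
  · intro h
    have hne : ∀ᵐ u : ℝ, u ≠ β := by rw [ae_iff]; simp
    filter_upwards [h, hne] with u h1 h2 h3
    exact h1 ⟨h3.1, lt_of_le_of_ne h3.2 h2⟩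

/-- only the values of the weight on `(0, 1]` matter -/
theorem weighted_congr (a b : ℤ) {K K' : ℝ → ℝ} (h : ∀ u ∈ Ioc (0 : ℝ) 1, K u = K' u) (X : ℝ) :
    weighted a b K X = Pool.Agent.R429.DM.wtd a b K' X := by
  unfold weighted Pool.Agent.R429.DM.wtd
  refine Finset.sum_congr rfl fun p hp => ?_
  rw [Finset.mem_filter, Finset.mem_range] at hp
  have hp2 : 2 ≤ p := hp.2.1.two_le
  have hX : 0 ≤ X := by
    by_contra h
    push Not at h
    rw [Nat.floor_of_nonpos h.le] at hp
    omega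
  have hpX : (p : ℝ) ≤ X := by
    have h2 : (p : ℝ) ≤ (⌊X⌋₊ : ℝ) := by exact_mod_cast (by omega : p ≤ ⌊X⌋₊)
    exact h2.trans (Nat.floor_le hX)
  have hp1 : (1 : ℝ) < p := by exact_mod_cast (by omega : 1 < p)
  have h1 : 0 < Real.log p := Real.log_pos hp1
  have h2 : Real.log p ≤ Real.log X := Real.log_le_log (by linarith) hpX
  have h3 : 0 < Real.log X := by linarith
  rw [h]
  exact ⟨by positivity, by rw [div_le_one h3]; exact h2⟩

/-- from growth to zeros, bounded measurable weights -/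
theorem down {a b : ℤ} {F : ℂ → ℂ} (hF : IsLSeries a b F)
    {K : ℝ → ℝ} (hK : Measurable K) {M : ℝ} (hM : ∀ u ∈ Ioc (0 : ℝ) 1, |K u| ≤ M) {β y : ℝ}
    (hβ0 : 0 < β) (hβ1 : β ≤ 1) (hy : 0 ≤ y) (hv : Vanishes K β 1) (hnv : ∀ α < β, ¬ Vanishes K α β)
    (h : ∀ ε : ℝ, 0 < ε → AlmostAllLarge fun X => |weighted a b K X| ≤ X ^ (β * y + ε)) :
    NoZeros F y := by
  set K' : ℝ → ℝ := (Ioc (0 : ℝ) 1).indicator K with hK'
  have hKm : Measurable K' := hK.indicator measurableSet_Ioc
  have hM' : ∀ u, |K' u| ≤ max M 0 := by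
    intro u
    rw [hK']
    by_cases hu : u ∈ Ioc (0 : ℝ) 1
    · rw [indicator_of_mem hu]
      exact (hM u hu).trans (le_max_left _ _)
    · rw [indicator_of_notMem hu, abs_zero]
      exact le_max_right _ _
  have hkk : ∀ u ∈ Ioc (0 : ℝ) 1, K u = K' u := fun u hu => (indicator_of_mem hu K).symm
  simp only [weighted_congr a b hkk] at h
  refine Pool.Agent.R429.DM.wtd_zero_free hF hKm hM' hy hβ0 hβ1 ?_ (fun δ hδ h' => ?_) h
  · unfold Vanishes at hv
    filter_upwards [hv] with u h1 h2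
    rw [← hkk u ⟨by linarith [h2.1], h2.2.le⟩]
    exact h1 ⟨h2.1, h2.2.le⟩
  · refine hnv (max (β - δ) 0) (max_lt (by linarith) hβ0) ?_
    rw [vanishes_iff]
    filter_upwards [h'] with u h1 h2
    have h3 : β - δ < u := lt_of_le_of_lt (le_max_left _ _) h2.1
    have h4 : 0 < u := lt_of_le_of_lt (le_max_right _ _) h2.1
    rw [hkk u ⟨h4, by linarith [h2.2]⟩]
    exact h1 ⟨h3, h2.2⟩

/-- a function of bounded variation on `[0, 1]` agrees there with a measurable function -/
theorem bv_measurable {K : ℝ → ℝ} (hK : BoundedVariationOn K (Icc 0 1)) :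
    ∃ K' : ℝ → ℝ, Measurable K' ∧ ∀ u ∈ Icc (0 : ℝ) 1, K u = K' u := by
  obtain ⟨p, q, hp, hq, hpq⟩ := hK.locallyBoundedVariationOn.exists_monotoneOn_sub_monotoneOn
  have hext : ∀ {g : ℝ → ℝ}, MonotoneOn g (Icc 0 1) → ∃ g' : ℝ → ℝ, Monotone g' ∧
      EqOn g g' (Icc 0 1) := by
    intro g hg
    refine hg.exists_monotone_extension ⟨g 0, ?_⟩ ⟨g 1, ?_⟩
    · rintro _ ⟨u, hu, rfl⟩
      exact hg (left_mem_Icc.2 zero_le_one) hu hu.1
    · rintro _ ⟨u, hu, rfl⟩
      exact hg hu (right_mem_Icc.2 zero_le_one) hu.2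
  obtain ⟨p', hp', hpe⟩ := hext hp
  obtain ⟨q', hq', hqe⟩ := hext hq
  refine ⟨fun u => p' u - q' u, hp'.measurable.sub hq'.measurable, fun u hu => ?_⟩
  rw [hpq]
  simp only [Pi.sub_apply]
  rw [hpe hu, hqe hu]

/-- an upper bound for all `X` gives the bound for large `X` without a constant -/
theorem absorb {f : ℝ → ℝ} {α : ℝ} (h : ∀ ε : ℝ, 0 < ε → ∃ C : ℝ, ∀ X : ℝ, 1 < X → |f X| ≤ C * X ^ (α + ε))
    {ε : ℝ} (hε : 0 < ε) : AlmostAllLarge fun X => |f X| ≤ X ^ (α + ε) := by
  obtain ⟨C, hC⟩ := h (ε / 2) (by linarith)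
  have h1 : ∀ᶠ X : ℝ in atTop, C ≤ X ^ (ε / 2) :=
    (tendsto_rpow_atTop (by linarith : 0 < ε / 2)).eventually_ge_atTop C
  obtain ⟨X₀, hX₀⟩ := eventually_atTop.1 h1
  refine ⟨max X₀ 2, ae_of_all _ fun X hX => ?_⟩
  have hX2 : 2 ≤ X := (le_max_right _ _).trans hX
  have hX0 : 0 < X := by linarith
  calc |f X| ≤ C * X ^ (α + ε / 2) := hC X (by linarith)
    _ ≤ X ^ (ε / 2) * X ^ (α + ε / 2) :=
      mul_le_mul_of_nonneg_right (hX₀ X ((le_max_left _ _).trans hX)) (by positivity)
    _ = X ^ (α + ε) := by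
      rw [← Real.rpow_add hX0]
      congr 1
      ring

/-- the bounds of the sums of an elliptic curve in a zero-free half plane -/
theorem up {a b : ℤ} (hΔ : 4 * a ^ 3 + 27 * b ^ 2 ≠ 0) {F : ℂ → ℂ} (hF : IsLSeries a b F)
    {N : ℕ} [NeZero N] {f : CuspForm (Gamma0 N : Subgroup (GL (Fin 2) ℝ)) 2}
    (hf : IsNewformOf a b N f) {K : ℝ → ℝ} (hK : BoundedVariationOn K (Icc 0 1)) {β y : ℝ}
    (hβ0 : 0 < β) (hy : 0 ≤ y) (hv : ∀ u ∈ Ioc β 1, K u = 0) (hz : NoZeros F y) {ε : ℝ} (hε : 0 < ε) :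
    ∃ C : ℝ, ∀ X : ℝ, 1 < X → |weighted a b K X| ≤ C * X ^ (β * y + ε) := by
  obtain ⟨C, hC⟩ := Pool.Agent.R429.DM.Up.curve_bv hF
    (Pool.Agent.TH942.RZ.growth_newform hΔ hF (hecke hf) hf.points) hK hβ0 hv hy hz hε
  refine ⟨C, fun X hX => ?_⟩
  rw [weighted_congr a b (K' := K) fun u _ => rfl]
  exact hC X hX

/-- **Exact exponents.** -/
theorem result (a b : ℤ) (hΔ : 4 * a ^ 3 + 27 * b ^ 2 ≠ 0) (F : ℂ → ℂ) (hF : IsLSeries a b F)
    (N : ℕ) [NeZero N] (f : CuspForm (Gamma0 N : Subgroup (GL (Fin 2) ℝ)) 2)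
    (hf : IsNewformOf a b N f) (K : ℝ → ℝ) :
    (∀ β y M : ℝ, 0 < β → β ≤ 1 → 0 ≤ y → Measurable K → (∀ u ∈ Ioc (0 : ℝ) 1, |K u| ≤ M) →
      Vanishes K β 1 → (∀ α < β, ¬ Vanishes K α β) →
      (∀ ε : ℝ, 0 < ε → AlmostAllLarge fun X => |weighted a b K X| ≤ X ^ (β * y + ε)) → NoZeros F y) ∧
    (∀ β y : ℝ, 0 < β → β ≤ 1 → 0 ≤ y → BoundedVariationOn K (Icc 0 1) →
      (∀ u ∈ Ioc β 1, K u = 0) → (∀ α < β, ¬ Vanishes K α β) → List.TFAE [
        NoZeros F y,
        ∀ ε : ℝ, 0 < ε → ∃ C : ℝ, ∀ X : ℝ, 1 < X → |weighted a b K X| ≤ C * X ^ (β * y + ε),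
        ∀ ε : ℝ, 0 < ε → AlmostAllLarge fun X => |weighted a b K X| ≤ X ^ (β * y + ε)]) ∧
    (BoundedVariationOn K (Icc 0 1) → ¬ Vanishes K 0 1 → List.TFAE [
        NoZeros F 0,
        ∀ ε : ℝ, 0 < ε → ∃ C : ℝ, ∀ X : ℝ, 1 < X → |weighted a b K X| ≤ C * X ^ ε,
        ∀ ε : ℝ, 0 < ε → AlmostAllLarge fun X => |weighted a b K X| ≤ X ^ ε]) := by
  -- from growth to zeros for weights of bounded variation
  have hdown : BoundedVariationOn K (Icc 0 1) → ∀ β y : ℝ, 0 < β → β ≤ 1 → 0 ≤ y →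
      Vanishes K β 1 → (∀ α < β, ¬ Vanishes K α β) →
      (∀ ε : ℝ, 0 < ε → AlmostAllLarge fun X => |weighted a b K X| ≤ X ^ (β * y + ε)) →
      NoZeros F y := by
    intro hK β y hβ0 hβ1 hy hv hnv h
    obtain ⟨K', hK'm, hKK⟩ := bv_measurable hK
    have hKK' : ∀ u ∈ Ioc (0 : ℝ) 1, K' u = K u := fun u hu => (hKK u ⟨hu.1.le, hu.2⟩).symm
    have hw : ∀ X, weighted a b K' X = weighted a b K X := fun X => by
      rw [weighted_congr a b hKK' X, ← weighted_congr a b (fun u _ => rfl) X]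
    refine down hF hK'm (M := |K 1| + (eVariationOn K (Icc 0 1)).toReal) (fun u hu => ?_)
      hβ0 hβ1 hy ?_ (fun α hα h' => ?_) (fun ε hε => ?_)
    · rw [hKK' u hu]
      exact Pool.Agent.R429.DM.Up.bv_bd hK u ⟨hu.1.le, hu.2⟩
    · unfold Vanishes at hv ⊢
      filter_upwards [hv] with u h1 h2
      rw [hKK' u ⟨by linarith [h2.1], h2.2⟩]
      exact h1 h2
    · refine hnv (max α 0) (max_lt hα hβ0) ?_
      unfold Vanishes at h' ⊢
      filter_upwards [h'] with u h1 h2
      have h3 : 0 < u := lt_of_le_of_lt (le_max_right _ _) h2.1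
      rw [← hKK' u ⟨h3, h2.2.trans hβ1⟩]
      exact h1 ⟨lt_of_le_of_lt (le_max_left _ _) h2.1, h2.2⟩
    · simp only [hw]
      exact h ε hε
  refine ⟨fun β y M hβ0 hβ1 hy hKm hM hv hnv h => down hF hKm hM hβ0 hβ1 hy hv hnv h,
    fun β y hβ0 hβ1 hy hK hv hnv => ?_, fun hK h0 => ?_⟩
  · tfae_have 1 → 2 := fun h ε hε => up hΔ hF hf hK hβ0 hy hv h hε
    tfae_have 2 → 3 := fun h ε hε => absorb h hε
    tfae_have 3 → 1 := fun h => hdown hK β y hβ0 hβ1 hy (ae_of_all _ hv) hnv h
    tfae_finish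
  · tfae_have 1 → 2 := by
      intro h ε hε
      have := up hΔ hF hf hK one_pos le_rfl (fun u hu => absurd hu.1 (not_lt.2 hu.2)) h hε
      simpa using this
    tfae_have 2 → 3 := by
      intro h ε hε
      have h1 : ∀ ε : ℝ, 0 < ε → ∃ C : ℝ, ∀ X : ℝ, 1 < X → |weighted a b K X| ≤ C * X ^ (0 + ε) := by
        intro ε hε
        simpa using h ε hε
      have := absorb h1 hε
      simpa using this
    tfae_have 3 → 1 := by
      intro h
      obtain ⟨β, hb0, hb1, hb2, hb3⟩ := Pool.Agent.R429.DM.exists_beta (K := K) (by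
        intro h'
        exact h0 h')
      refine hdown hK β 0 hb0 hb1 le_rfl ((vanishes_iff K β 1).2 hb2) (fun α hα h' => ?_)
        (fun ε hε => ?_)
      · refine hb3 (β - α) (by linarith) ?_
        rw [vanishes_iff] at h'
        rw [show β - (β - α) = α by ring]
        exact h'
      · simpa using h ε hε
    tfae_finish

end Pool.Agent.Results.MP_553913_nt.ExactExponents
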