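import Pool.Agent.R838.CR.AllR

/-!
# The heat flow of the L-functions of elliptic curves: almost all zeros are on the line and equally spaced

`E : y² = x³ + a x + b` is an elliptic curve over `ℚ` of conductor `N`, `Λ` its completed L-function, and
`Λ_t = exp (t D²) Λ`, `D = d/ds`, the heat flow. If all zeros of `Λ_t` are on the line `Re s = 1`, the same is true for
all larger `t`, and it is true for `t ≥ 1/8` (de Bruijn); the Riemann hypothesis for `L(E, s)` says that it is true for
all `t > 0`. The mean distance of the zeros at height `y` is `π / log y`.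

We prove unconditionally, for every `E` and all `ε > 0`, `A`: there are constants `c, C > 0` such that for `0 < t ≤ 1/8`
and `T ≥ 2` at most the proportion `C exp (-c t log² T)` of the zeros of `Λ_t` with imaginary part in `(T, 2T]` are off the
line `Re s = 1`, or multiple, or, if `t log T ≤ A`, not followed by a simple zero on the line at the distance
`(1 + O(ε)) π / log y`, with no zeros in between. So almost all zeros are simple, on the line and form a lattice as
soon as `t` is large compared with `1 / log² T`, the square of the mean distance of the zeros. (That there are no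
zeros off the line at height `T` was only known for `t` larger than a multiple of `1 / log T`.)

Proof: at all heights except for a set of proportion `exp (-c a)` the function `Λ` looks at the scale `a / log T` like
`exp (z log T)` plus its reflection (mollified second moment near the line, shifted convolution sums by Jutila's circle
method; project GD2, modules `Pool.Agent.Y671` and imports, by helper671 and helpers 46, 67, 157, 175, 180, 228, 275, 285,
287, 317, 412, 423, 494, 660, 771, 809). A local theorem on the heat flow at the time `t = a / (2 log² T)` shows that the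
zeros of `Λ_t` near such heights are simple and on the line. New here (`Pool.Agent.R838.CR`) are the gaps: `Λ_t` is on the
line the real part of an integral over a half-line, which by the saddle point method rotates with constant speed.
-/

set_option autoImplicit false

open Complex UpperHalfPlane MatrixGroups CongruenceSubgroup

namespace Pool.Agent.Results.MP_553913_nt.HeatFlowDensity

/-- The coefficient `a_p` of `E : y² = x³ + a x + b` at a prime `p ∤ 2 (4a³ + 27b²)`: `p` minus the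
number of pairs `(x, y)` modulo `p` with `y² ≡ x³ + a x + b (mod p)`. -/
noncomputable def ap (a b : ℤ) (p : ℕ) : ℤ :=
  (p : ℤ) - (((Finset.range p ×ˢ Finset.range p).filter
    (fun xy : ℕ × ℕ => (p : ℤ) ∣ (xy.2 : ℤ) ^ 2 -
      ((xy.1 : ℤ) ^ 3 + a * (xy.1 : ℤ) + b))).card : ℤ)

/-- The `n`-th Fourier coefficient of `f`. -/
noncomputable def coef {N : ℕ} (f : CuspForm (Gamma0 N : Subgroup (GL (Fin 2) ℝ)) 2) (n : ℕ) : ℂ :=
  (qExpansion 1 f).coeff n

/-- `f ∈ S_2(Γ₀(N))` is the newform of the elliptic curve `E : y² = x³ + a x + b` of conductor `N` and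
root number `w`: the Fourier coefficients `c(n)` of `f` are real with `c(1) = 1`, they satisfy the
Hecke relations `c(mn) = c(m) c(n)` for coprime `m`, `n` and `c(p^(j+2)) = c(p) c(p^(j+1)) - p c(p^j)`
(without the last term if `p ∣ N`), `f(-1/(Nτ)) = -w N τ² f(τ)`, `c(p) = a_p(E)` for all primes
`p ∤ 2 (4a³ + 27b²)`, `|c(p)| ≤ 2 √p` for all `p ∤ N` (Hasse) and `c(p) = 0, 1, -1` for `p ∣ N`.
By the modularity theorem (Wiles, Taylor-Wiles, Breuil-Conrad-Diamond-Taylor) it exists for every `E`. -/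
structure IsFormOf (a b : ℤ) (N : ℕ) (f : CuspForm (Gamma0 N : Subgroup (GL (Fin 2) ℝ)) 2) (w : ℝ) :
    Prop where
  one : coef f 1 = 1
  real : ∀ n, (coef f n).im = 0
  mul : ∀ m n : ℕ, Nat.Coprime m n → coef f (m * n) = coef f m * coef f n
  pow : ∀ p j : ℕ, p.Prime → coef f (p ^ (j + 2)) = coef f p * coef f (p ^ (j + 1)) -
      (if p ∣ N then 0 else (p : ℂ) * coef f (p ^ j))
  sign : w = 1 ∨ w = -1
  fricke : ∀ τ τ' : ℍ, (τ' : ℂ) * ((N : ℂ) * (τ : ℂ)) = -1 →
    f τ' = -(w : ℂ) * (N : ℂ) * (τ : ℂ) ^ 2 * f τ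
  points : ∀ p : ℕ, p.Prime → ¬ (p : ℤ) ∣ 2 * (4 * a ^ 3 + 27 * b ^ 2) → coef f p = (ap a b p : ℂ)
  good : ∀ p : ℕ, p.Prime → ¬ p ∣ N → ‖coef f p‖ ≤ 2 * Real.sqrt p
  bad : ∀ p : ℕ, p.Prime → p ∣ N → coef f p = 0 ∨ coef f p = 1 ∨ coef f p = -1

/-- `Λ` is the completed L-function of `f`: it is entire and
`Λ(s) = N^(s/2) (2π)^(-s) Γ(s) ∑ c(n) n^(-s)` for `Re s > 2`. -/
def IsCompleted {N : ℕ} (f : CuspForm (Gamma0 N : Subgroup (GL (Fin 2) ℝ)) 2) (Λ : ℂ → ℂ) : Prop :=
  Differentiable ℂ Λ ∧ ∀ s : ℂ, 2 < s.re →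
    Λ s = ((Real.sqrt N / (2 * Real.pi) : ℝ) : ℂ) ^ s * Complex.Gamma s *
      ∑' n : ℕ, coef f (n + 1) * ((n + 1 : ℕ) : ℂ) ^ (-s)

/-- The heat flow `Λ_t = exp (t D²) Λ` (`D = d/ds`, `t ≥ 0`) as a Gaussian average:
`Λ_t(s) = π^(-1/2) ∫ exp (-v²) Λ(s + 2 √t v) dv`. -/
noncomputable def heat (t : ℝ) (Λ : ℂ → ℂ) (s : ℂ) : ℂ :=
  ((1 / Real.sqrt Real.pi : ℝ) : ℂ) *
    ∫ v : ℝ, ((Real.exp (-v ^ 2) : ℝ) : ℂ) * Λ (s + ((2 * Real.sqrt t * v : ℝ) : ℂ))

/-- The zeros of `Λ_t` with imaginary part in `(T, 2T]`. -/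
def Zer (Λ : ℂ → ℂ) (t T : ℝ) : Set ℂ := {s | heat t Λ s = 0 ∧ T < s.im ∧ s.im ≤ 2 * T}

/-- The next zero of `Y` above `s` is simple and lies vertically above `s`, at a distance `g` with
`|g κ log (Im s) - π| ≤ ε`; and `s` and `s + i g` are the only zeros with imaginary part in `[Im s, Im s + g]`. -/
def Followed (Y : ℂ → ℂ) (κ ε : ℝ) (s : ℂ) : Prop :=
  ∃ g : ℝ, 0 < g ∧ |g * (κ * Real.log s.im) - Real.pi| ≤ ε ∧
    Y (s + g * Complex.I) = 0 ∧ deriv Y (s + g * Complex.I) ≠ 0 ∧
    ∀ z : ℂ, Y z = 0 → s.im ≤ z.im → z.im ≤ s.im + g → z = s ∨ z = s + g * Complex.I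

/-- The exceptional ones: off the line `Re s = 1`, or multiple, or, if `t log T ≤ A`, not followed by a zero at the
distance `(π + O(ε)) / log (Im s)`. -/
def Exc (Λ : ℂ → ℂ) (ε A t T : ℝ) : Set ℂ :=
  {s | s ∈ Zer Λ t T ∧ (s.re ≠ 1 ∨ deriv (heat t Λ) s = 0 ∨
    (t * Real.log T ≤ A ∧ ¬ Followed (heat t Λ) 1 ε s))}

/-- The number of points of `A`, each counted with its multiplicity as a zero of `Λ_t`. -/
noncomputable def num (Λ : ℂ → ℂ) (t : ℝ) (A : Set ℂ) : ℕ :=
  ∑ᶠ s ∈ A, analyticOrderNatAt (heat t Λ) s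

/-- **Main theorem.** Let `E : y² = x³ + a x + b` be an elliptic curve over `ℚ`, `Λ` its completed
L-function and `Λ_t` its heat flow. For all `ε > 0` and `A` there are `c, C > 0` such that for `0 < t ≤ 1/8` and `T ≥ 2`
at most the proportion `C exp (-c t log² T)` of the zeros of `Λ_t` with imaginary part in `(T, 2T]`, counted with
multiplicity, are off the line `Re s = 1`, or multiple, or (if `t log T ≤ A`) not followed by a simple zero on the line at
the distance `(π + O(ε)) / log (Im s)` with no zeros in between; and the number of these exceptional zeros is at most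
`C exp (-c t log² T) T log T`. -/
theorem result (a b : ℤ) (N : ℕ) [NeZero N] (f : CuspForm (Gamma0 N : Subgroup (GL (Fin 2) ℝ)) 2) (w : ℝ)
    (_ : 4 * a ^ 3 + 27 * b ^ 2 ≠ 0) (hf : IsFormOf a b N f w) :
    ∃ Λ : ℂ → ℂ, IsCompleted f Λ ∧ (∀ Λ', IsCompleted f Λ' → Λ' = Λ) ∧
      (∀ s : ℂ, Λ (2 - s) = (w : ℂ) * Λ s) ∧
      (∀ t T : ℝ, 0 ≤ t → (Zer Λ t T).Finite) ∧
      ∀ ε A : ℝ, 0 < ε → ∃ c C : ℝ, 0 < c ∧ 0 < C ∧ ∀ t T : ℝ, 0 < t → t ≤ 1 / 8 → 2 ≤ T →
        (num Λ t (Exc Λ ε A t T) : ℝ) ≤ C * Real.exp (-(c * t * Real.log T ^ 2)) * num Λ t (Zer Λ t T) ∧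
        (num Λ t (Exc Λ ε A t T) : ℝ) ≤ C * Real.exp (-(c * t * Real.log T ^ 2)) * T * Real.log T := by
  have hf' : Pool.Agent.W169.HF.IsForm N f w :=
    { one := hf.one
      real := hf.real
      mul := hf.mul
      pow := hf.pow
      sign := hf.sign
      fricke := hf.fricke
      good := hf.good
      bad := fun p hp hpN => by
        have h1 : (1 : ℝ) ≤ Real.sqrt p := by
          rw [Real.one_le_sqrt]
          exact_mod_cast hp.one_le
        have h2 : ‖coef f p‖ ≤ 1 := by
          rcases hf.bad p hp hpN with h | h | h <;> simp [h]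
        exact h2.trans h1 }
  obtain ⟨Λ, hΛ, hfe, -, -⟩ := Pool.Agent.W174.HF.nf1 N f w hf'
  obtain ⟨u, H, Z, hu, hG, hst, hA, -, hH⟩ := Pool.Agent.Y671.GL.ec_data hf' hΛ
  have e1 : (fun z : ℂ => u * Λ (1 + z)) = fun z => u * Λ (((1 : ℝ) : ℂ) + z) := by
    funext z
    rw [Complex.ofReal_one]
  rw [e1] at hG hA hH hst
  obtain ⟨h1, h2⟩ := Pool.Agent.R838.CR.countA_shift (by norm_num) hu (Pool.Agent.Y693.GL.gy_one hG) hA hst hH
  exact ⟨Λ, hΛ, fun Λ' h' => Pool.Agent.W169.HF.completed_unique h' hΛ, hfe, h1, h2⟩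

end Pool.Agent.Results.MP_553913_nt.HeatFlowDensity
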