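import Pool.Agent.R838.TW.Cnt
import Pool.Agent.R838.TW.Form

/-!
# Zeros of the L-functions of elliptic curves off the line `Re s = 1`, and growth away from the line

`E : y² = x³ + a x + b` is an elliptic curve over `ℚ` of conductor `N`, `Λ` its completed L-function. We prove
unconditionally, for every `E` and EVERY `c < 1`:

* the number of zeros of `Λ` with imaginary part in `(0, T]` and distance at least `δ` from the line `Re s = 1`, counted
  with multiplicity, is at most `C T^(1 - c δ) log T`, for all `δ ≥ 0` and all `T ≥ 2`; in particular the number of those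
  at distance at least `h / log T` is at most `C e^(-c h) T log T`;
* for all `r ≥ 0` and `T ≥ 2` the heights `t` in `[0, T]` at which `σ ↦ |Λ(σ + i t)|` is not strictly increasing on
  `σ ≥ 1 + r / log T` form a set of measure at most `C e^(-c r) T`.

The Riemann hypothesis for `L(E, s)` is equivalent to the statement that `σ ↦ |Λ(σ + i t)|` is strictly increasing on
`σ ≥ 1` for every real `t`.

Proof: the density theorem is the one of the starting modules `Pool.Agent.Y24.GL` (helper24) and `Pool.Agent.Y771.NF`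
(helper771) for all newforms with real coefficients, handed in so far for the Ramanujan Xi function only
(MP_cd509c_nt); it rests on the mollified second moment of project GD2 of helper671 (shifted convolution sums by
Jutila's circle method). The second part (modules `Pool.Agent.R838.TW`) follows from it since a zero `1 + β + i γ`
disturbs the growth only for `|t - γ| < |β|` (Hadamard product); compared with the starting modules `Pool.Agent.Y22.RX`
(for the Ramanujan Xi function) zeros at the centre (curves of positive rank) and real zeros off the centre, which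
cannot be excluded here, are admitted.
-/

set_option autoImplicit false

open Complex UpperHalfPlane MatrixGroups CongruenceSubgroup

namespace Pool.Agent.Results.MP_553913_nt.OffLineZeros

/-- The coefficient `a_p` of `E : y² = x³ + a x + b` at a prime `p ∤ 2 (4a³ + 27b²)`: `p` minus the
number of pairs `(x, y)` modulo `p` with `y² ≡ x³ + a x + b (mod p)`. -/
noncomputable def ap (a b : ℤ) (p : ℕ) : ℤ :=
  (p : ℤ) - (((Finset.range p ×ˢ Finset.range p).filter
    (fun xy : ℕ × ℕ => (p : ℤ) ∣ (xy.2 : ℤ) ^ 2 -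
      ((xy.1 : ℤ) ^ 3 + a * (xy.1 : ℤ) + b))).card : ℤ)

/-- The `n`-th Fourier coefficient of `f`. -/
noncomputable def coef {N : ℕ} (f : CuspForm (Gamma0 N : Subgroup (GL (Fin 2) ℝ)) 2) (n : ℕ) : ℂ :=
  (qExpansion 1 f).coeff n

/-- `f ∈ S_2(Γ₀(N))` is the newform of the elliptic curve `E : y² = x³ + a x + b` of conductor `N` and
root number `w`: the Fourier coefficients `c(n)` of `f` are real with `c(1) = 1`, they satisfy the
Hecke relations `c(mn) = c(m) c(n)` for coprime `m`, `n` and `c(p^(j+2)) = c(p) c(p^(j+1)) - p c(p^j)`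
(without the last term if `p ∣ N`), `f(-1/(Nτ)) = -w N τ² f(τ)`, `c(p) = a_p(E)` for all primes
`p ∤ 2 (4a³ + 27b²)`, `|c(p)| ≤ 2 √p` for all `p ∤ N` (Hasse) and `c(p) = 0, 1, -1` for `p ∣ N`.
By the modularity theorem (Wiles, Taylor-Wiles, Breuil-Conrad-Diamond-Taylor) it exists for every `E`. -/
structure IsFormOf (a b : ℤ) (N : ℕ) (f : CuspForm (Gamma0 N : Subgroup (GL (Fin 2) ℝ)) 2) (w : ℝ) :
    Prop where
  one : coef f 1 = 1
  real : ∀ n, (coef f n).im = 0
  mul : ∀ m n : ℕ, Nat.Coprime m n → coef f (m * n) = coef f m * coef f n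
  pow : ∀ p j : ℕ, p.Prime → coef f (p ^ (j + 2)) = coef f p * coef f (p ^ (j + 1)) -
      (if p ∣ N then 0 else (p : ℂ) * coef f (p ^ j))
  sign : w = 1 ∨ w = -1
  fricke : ∀ τ τ' : ℍ, (τ' : ℂ) * ((N : ℂ) * (τ : ℂ)) = -1 →
    f τ' = -(w : ℂ) * (N : ℂ) * (τ : ℂ) ^ 2 * f τ
  points : ∀ p : ℕ, p.Prime → ¬ (p : ℤ) ∣ 2 * (4 * a ^ 3 + 27 * b ^ 2) → coef f p = (ap a b p : ℂ)
  good : ∀ p : ℕ, p.Prime → ¬ p ∣ N → ‖coef f p‖ ≤ 2 * Real.sqrt p
  bad : ∀ p : ℕ, p.Prime → p ∣ N → coef f p = 0 ∨ coef f p = 1 ∨ coef f p = -1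

/-- `Λ` is the completed L-function of `f`: it is entire and
`Λ(s) = N^(s/2) (2π)^(-s) Γ(s) ∑ c(n) n^(-s)` for `Re s > 2`. -/
def IsCompleted {N : ℕ} (f : CuspForm (Gamma0 N : Subgroup (GL (Fin 2) ℝ)) 2) (Λ : ℂ → ℂ) : Prop :=
  Differentiable ℂ Λ ∧ ∀ s : ℂ, 2 < s.re →
    Λ s = ((Real.sqrt N / (2 * Real.pi) : ℝ) : ℂ) ^ s * Complex.Gamma s *
      ∑' n : ℕ, coef f (n + 1) * ((n + 1 : ℕ) : ℂ) ^ (-s)

/-- The zeros of `Λ` at distance at least `δ` from the line `Re s = 1`, with imaginary part in `(0, T]`. -/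
def Off (Λ : ℂ → ℂ) (δ T : ℝ) : Set ℂ := {s | Λ s = 0 ∧ δ ≤ |s.re - 1| ∧ 0 < s.im ∧ s.im ≤ T}

/-- The number of points of `A`, each counted with its multiplicity as a zero of `Λ`. -/
noncomputable def num (Λ : ℂ → ℂ) (A : Set ℂ) : ℕ := ∑ᶠ s ∈ A, analyticOrderNatAt Λ s

/-- `σ ↦ |Λ(σ + i t)|` is strictly increasing on the half-line `σ ≥ 1 + h`. -/
def Grows (Λ : ℂ → ℂ) (h t : ℝ) : Prop :=
  StrictMonoOn (fun σ : ℝ => ‖Λ (σ + t * Complex.I)‖) (Set.Ici (1 + h))

theorem key {N : ℕ} [NeZero N] {f : CuspForm (Gamma0 N : Subgroup (GL (Fin 2) ℝ)) 2} {w : ℝ}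
    (hf' : Pool.Agent.W169.HF.IsForm N f w) {Λ : ℂ → ℂ} (hΛ : IsCompleted f Λ) :
    ∃ v : ℂ, v ≠ 0 ∧ Pool.Agent.R838.TW.PL 1 (fun z => v * Λ (((1 : ℝ) : ℂ) + z)) := by
  obtain ⟨X, v, h1, h2, h3⟩ := Pool.Agent.R838.TW.pl_fac (q := 1) (χ := 1) hf'
    DirichletCharacter.isPrimitive_one_level_one (Nat.coprime_one_left N)
  obtain ⟨Λ0, k1, k2, -, k4⟩ := Pool.Agent.R838.TW.exists_Lam h1 1
    (G := fun s => ((Real.sqrt N / (2 * Real.pi) : ℝ) : ℂ) ^ s * Complex.Gamma s *
      ∑' n : ℕ, coef f (n + 1) * ((n + 1 : ℕ) : ℂ) ^ (-s)) h2 (σ := 3 / 2) (fun s hs => by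
      rw [Complex.ofReal_one, h3 s hs]
      unfold Pool.Agent.W355.UN.facE
      rw [Nat.cast_one, mul_one]
      congr 2
      refine tsum_congr fun n => ?_
      rw [MulChar.one_apply (isUnit_of_subsingleton _), mul_one]
      rfl)
  have e : Λ0 = Λ := Pool.Agent.R838.TW.uniq hΛ.1 k1 ⟨2, hΛ.2⟩ ⟨3 / 2, k2⟩
  subst e
  exact ⟨v, h2, k4⟩

/-- **Main theorem.** Let `E : y² = x³ + a x + b` be an elliptic curve over `ℚ`, `Λ` its completed L-function. For every
`c < 1` there is `C` such that for `T ≥ 2`: the number of zeros of `Λ` with imaginary part in `(0, T]` and distance at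
least `δ ≥ 0` from the line `Re s = 1` is at most `C T^(1 - c δ) log T`; and the measure of the heights `t` in `[0, T]`
for which `|Λ(σ + i t)|` is not strictly increasing on `σ ≥ 1 + r / log T`, `r ≥ 0`, is at most `C e^(-c r) T`. The
Riemann hypothesis for `L(E, s)` holds if and only if `|Λ(σ + i t)|` is strictly increasing on `σ ≥ 1` for all `t`. -/
theorem result (a b : ℤ) (N : ℕ) [NeZero N] (f : CuspForm (Gamma0 N : Subgroup (GL (Fin 2) ℝ)) 2) (w : ℝ)
    (_ : 4 * a ^ 3 + 27 * b ^ 2 ≠ 0) (hf : IsFormOf a b N f w) :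
    ∃ Λ : ℂ → ℂ, IsCompleted f Λ ∧ (∀ Λ', IsCompleted f Λ' → Λ' = Λ) ∧
      (∀ s : ℂ, Λ (2 - s) = (w : ℂ) * Λ s) ∧
      (∀ c : ℝ, c < 1 → ∃ C : ℝ, 0 < C ∧
        (∀ δ T : ℝ, 0 ≤ δ → 2 ≤ T →
          (Off Λ δ T).Finite ∧ (num Λ (Off Λ δ T) : ℝ) ≤ C * T ^ (1 - c * δ) * Real.log T) ∧
        (∀ r T : ℝ, 0 ≤ r → 2 ≤ T →
          MeasureTheory.volume {t : ℝ | 0 ≤ t ∧ t ≤ T ∧ ¬ Grows Λ (r / Real.log T) t} ≤
            ENNReal.ofReal (C * Real.exp (-(c * r)) * T))) ∧
      ((∀ s : ℂ, Λ s = 0 → s.re = 1) ↔ ∀ t : ℝ, Grows Λ 0 t) := by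
  have hf' : Pool.Agent.W169.HF.IsForm N f w :=
    { one := hf.one
      real := hf.real
      mul := hf.mul
      pow := hf.pow
      sign := hf.sign
      fricke := hf.fricke
      good := hf.good
      bad := fun p hp hpN => by
        have h1 : (1 : ℝ) ≤ Real.sqrt p := by
          rw [Real.one_le_sqrt]
          exact_mod_cast hp.one_le
        have h2 : ‖coef f p‖ ≤ 1 := by
          rcases hf.bad p hp hpN with h | h | h <;> simp [h]
        exact h2.trans h1 }
  obtain ⟨Λ, hΛ, hfe, -, -⟩ := Pool.Agent.W174.HF.nf1 N f w hf'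
  obtain ⟨v, hv, hP⟩ := key hf' hΛ
  have hκ : (1 : ℝ) / 2 ≤ 1 := by norm_num
  refine ⟨Λ, hΛ, fun Λ' h' => Pool.Agent.W169.HF.completed_unique h' hΛ, hfe, fun c hc => ?_, ?_⟩
  · obtain ⟨C1, hC1, h1⟩ := Pool.Agent.R838.TW.PL.off hP hv hΛ.1 hc
    obtain ⟨C2, hC2, h2⟩ := Pool.Agent.R838.TW.PL.growth hκ hP hv hc
    refine ⟨max C1 C2, lt_max_of_lt_left hC1, fun δ T hδ hT => ?_, fun r T hr hT => ?_⟩
    · obtain ⟨h3, h4⟩ := h1 δ T hδ hT
      refine ⟨h3, h4.trans ?_⟩
      have hl : 0 ≤ Real.log T := Real.log_nonneg (by linarith)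
      have hp : 0 ≤ T ^ (1 - c * δ) := Real.rpow_nonneg (by linarith) _
      exact mul_le_mul_of_nonneg_right (mul_le_mul_of_nonneg_right (le_max_left _ _) hp) hl
    · refine (h2 r T hr hT).trans (ENNReal.ofReal_le_ofReal ?_)
      have hT0 : (0 : ℝ) ≤ T := by linarith
      exact mul_le_mul_of_nonneg_right
        (mul_le_mul_of_nonneg_right (le_max_right _ _) (Real.exp_pos _).le) hT0
  · have h3 := Pool.Agent.R838.TW.PL.crit hκ hP hv
    unfold Grows
    rw [add_zero]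
    exact h3

end Pool.Agent.Results.MP_553913_nt.OffLineZeros
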