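import Pool.Agent.TH942.SL.Final
import Pool.Agent.TH942.SL.Level

/-!
# Zero-free sectors of the `L`-function of an elliptic curve and finite sums of point counts

Let `E : y² = x³ + a x + b` be an elliptic curve over `ℚ`, `a, b ∈ ℤ`, let `F` be the entire continuation of
its incomplete `L`-series (the Euler factors at the primes dividing `2Δ` are removed), `m` the order of `F` at
the central point `s = 1` and `N_p` the number of affine points modulo `p`, so that `#E(𝔽_p) = N_p + 1`. For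
`ρ > 1` let

`w_ρ(u) = (2π)⁻¹ ∫ Re (exp (z - u z^(1/ρ)) / z) dt`, `z = 1 + it`

(the inverse Laplace transform of `exp (-u z^(1/ρ))/z` at `1`), and for `ρ' > ρ` let

`S_ρ(X) = ∑_{p ≤ exp((log X)^ρ'), p ∤ 2Δ} w_ρ(log p / log X) log (#E(𝔽_p)/p)`,

a FINITE sum of point counts. For every such curve and all `1 < ρ < ρ'` the following is proved.

(1) For every `θ ≥ 0` the function `F` has no zeros in the part `Re (s-1)^ρ > θ` of the sector
`|arg (s-1)| < π/(2ρ)` if and only if `|S_ρ(X)| ≤ C(ε) exp ((θ + ε) (log X)^ρ)` for every `ε > 0` and all large `X`: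
the exponent of growth of the finite sums is exactly the supremum of `Re (s-1)^ρ` over the zeros in the sector.

(2) The following are EQUIVALENT: `F` has no zeros in the sector `|arg (s-1)| < π/(2ρ)`;
`S_ρ(X) = m log log X + O(1)`; `S_ρ(X) = O(log log X)`; `S_ρ(X) = O(exp (ε (log X)^ρ))` for every `ε > 0`. So there is
a gap: between `O(log log X)` and `exp (c (log X)^ρ)` nothing is possible.

(3) The Riemann hypothesis for `E` (`F` has no zeros with `Re s > 1`) is equivalent to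
`S_ρ(X) = m log log X + O(1)` for all `1 < ρ < ρ'`, and also to `S_ρ(X) = O(exp (ε (log X)^ρ))`, `ε > 0`, for a
sequence of `ρ` tending to `1`, each with one `ρ' > ρ`.

As `ρ → 1` the sector tends to the half plane `Re s > 1` (and the weight to the sharp cut-off: there the statement
with `O(1)` is stronger than the Riemann hypothesis); every fixed `ρ` sees the zeros of one sector only.

Proof. Substituting `s - 1 = v^(1/ρ)` maps the half plane `Re v > 0` onto the sector, where the logarithm of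
`F` is the Laplace transform of the means `S_ρ` with respect to `(log X)^ρ`, up to bounded terms. The
logarithmic singularity at `v = 0` gives the main term, the zeros are logarithmic branch points that no
function of smaller growth can have.
-/

set_option autoImplicit false

namespace Pool.Agent.Results.MP_553913_nt.SectorLaw

open Pool.Agent.W263.BSD Filter Topology Classical MeasureTheory

/-- `w_ρ(u) = (2π)⁻¹ ∫ Re (exp (z - u z^(1/ρ)) / z) dt`, `z = 1 + it`. -/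
noncomputable def weight (ρ u : ℝ) : ℝ :=
  (2 * Real.pi)⁻¹ * ∫ t : ℝ, (Complex.exp ((1 + t * Complex.I) -
    u * (1 + t * Complex.I) ^ ((ρ⁻¹ : ℝ) : ℂ)) / (1 + t * Complex.I)).re

/-- `S_ρ(X)`: the sum of `w_ρ(log p / log X) log ((N_p + 1)/p)` over the primes `p ≤ exp ((log X)^ρ')`,
`p ∤ 2Δ`. -/
noncomputable def sum (a b : ℤ) (ρ ρ' X : ℝ) : ℝ :=
  ∑ p ∈ (Finset.range (⌊Real.exp (Real.log X ^ ρ')⌋₊ + 1)).filter (GoodPrime a b),
    weight ρ (Real.log p / Real.log X) * Real.log (((pointCount a b p : ℝ) + 1) / p)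

/-- The sector `|arg (s-1)| < π/(2ρ)`, `s ≠ 1`. -/
def Sector (ρ : ℝ) : Set ℂ := {s | s ≠ 1 ∧ |(s - 1).arg| < Real.pi / (2 * ρ)}

/-- `|S_ρ(X)| ≤ C(ε) exp ((θ + ε) (log X)^ρ)` for every `ε > 0` and all large `X`. -/
def GrowthLE (a b : ℤ) (ρ ρ' θ : ℝ) : Prop := ∀ ε : ℝ, 0 < ε → ∃ C : ℝ, ∀ᶠ X : ℝ in atTop,
  |sum a b ρ ρ' X| ≤ C * Real.exp ((θ + ε) * Real.log X ^ ρ)

/-- **Zero-free sectors and finite sums of point counts.** -/
theorem result (a b : ℤ) (F : ℂ → ℂ) (hF : IsLSeries a b F) (m : ℕ)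
    (hm : analyticOrderAt F 1 = m) :
    (∀ ρ ρ' : ℝ, 1 < ρ → ρ < ρ' →
      (∀ θ : ℝ, 0 ≤ θ → ((∀ s ∈ Sector ρ, θ < ((s - 1) ^ (ρ : ℂ)).re → F s ≠ 0) ↔
        GrowthLE a b ρ ρ' θ)) ∧
      List.TFAE [
        ∀ s ∈ Sector ρ, F s ≠ 0,
        ∃ C : ℝ, ∀ᶠ X : ℝ in atTop, |sum a b ρ ρ' X - m * Real.log (Real.log X)| ≤ C,
        ∃ K : ℝ, ∀ᶠ X : ℝ in atTop, |sum a b ρ ρ' X| ≤ K * Real.log (Real.log X),
        GrowthLE a b ρ ρ' 0]) ∧
    List.TFAE [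
      ∀ s : ℂ, 1 < s.re → F s ≠ 0,
      ∀ ρ ρ' : ℝ, 1 < ρ → ρ < ρ' → ∃ C : ℝ, ∀ᶠ X : ℝ in atTop,
        |sum a b ρ ρ' X - m * Real.log (Real.log X)| ≤ C,
      ∀ ρ₁ : ℝ, 1 < ρ₁ → ∃ ρ ρ' : ℝ, 1 < ρ ∧ ρ < ρ₁ ∧ ρ < ρ' ∧ GrowthLE a b ρ ρ' 0] := by
  have hS : ∀ ρ ρ' X, sum a b ρ ρ' X = Pool.Agent.TH942.SL.Sr a b ρ ρ' X := fun _ _ _ => rfl
  -- a zero in the sector has `Re (s-1)^ρ > 0`
  have hlev : ∀ ρ ρ' : ℝ, 1 < ρ → ρ < ρ' → ∀ θ : ℝ, 0 ≤ θ →
      ((∀ s ∈ Sector ρ, θ < ((s - 1) ^ (ρ : ℂ)).re → F s ≠ 0) ↔ GrowthLE a b ρ ρ' θ) := by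
    intro ρ ρ' hρ hρ' θ hθ
    rw [show GrowthLE a b ρ ρ' θ ↔ _ from (Pool.Agent.TH942.SL.Sr_level hF hρ hρ' hθ).symm]
    exact ⟨fun h s hs1 hs => h s ⟨hs1, hs⟩, fun h s hs => h s hs.1 hs.2⟩
  have hzero : ∀ ρ : ℝ, 1 < ρ → ((∀ s ∈ Sector ρ, F s ≠ 0) ↔
      ∀ s ∈ Sector ρ, 0 < ((s - 1) ^ (ρ : ℂ)).re → F s ≠ 0) := by
    intro ρ hρ
    refine ⟨fun h s hs _ => h s hs, fun h s hs => ?_⟩
    exact h s hs (Pool.Agent.TH942.SL.exists_root hρ (sub_ne_zero.2 hs.1) hs.2).1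
  have hpart : ∀ ρ ρ' : ℝ, 1 < ρ → ρ < ρ' → List.TFAE [
        ∀ s ∈ Sector ρ, F s ≠ 0,
        ∃ C : ℝ, ∀ᶠ X : ℝ in atTop, |sum a b ρ ρ' X - m * Real.log (Real.log X)| ≤ C,
        ∃ K : ℝ, ∀ᶠ X : ℝ in atTop, |sum a b ρ ρ' X| ≤ K * Real.log (Real.log X),
        GrowthLE a b ρ ρ' 0] := by
    intro ρ ρ' hρ hρ'
    tfae_have 1 → 2 := by
      intro h
      obtain ⟨C, -, hC⟩ := Pool.Agent.TH942.SL.Sr_up hF hρ hρ' hm fun s hs1 hs => h s ⟨hs1, hs⟩
      exact ⟨C, hC⟩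
    tfae_have 2 → 3 := by
      rintro ⟨C, hC⟩
      refine ⟨|C| + m, ?_⟩
      have h1 : Tendsto (fun X : ℝ => Real.log (Real.log X)) atTop atTop :=
        Real.tendsto_log_atTop.comp Real.tendsto_log_atTop
      filter_upwards [hC, h1.eventually_ge_atTop 1] with X h2 h3
      have h4 : |sum a b ρ ρ' X| ≤ |C| + m * Real.log (Real.log X) := by
        have h5 := abs_sub_abs_le_abs_sub (sum a b ρ ρ' X) (m * Real.log (Real.log X))
        have h6 : |(m : ℝ) * Real.log (Real.log X)| = m * Real.log (Real.log X) :=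
          abs_of_nonneg (by positivity)
        rw [h6] at h5
        have := le_abs_self C
        linarith
      have h7 : |C| ≤ |C| * Real.log (Real.log X) := le_mul_of_one_le_right (abs_nonneg C) h3
      rw [add_mul]
      linarith
    tfae_have 3 → 1 := by
      rintro ⟨K, hK⟩ s hs
      exact Pool.Agent.TH942.SL.sector_of_small hF hρ hρ' hK s hs.1 hs.2
    tfae_have 1 ↔ 4 := by
      rw [hzero ρ hρ]
      exact hlev ρ ρ' hρ hρ' 0 le_rfl
    tfae_finish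
  refine ⟨fun ρ ρ' hρ hρ' => ⟨hlev ρ ρ' hρ hρ', hpart ρ ρ' hρ hρ'⟩, ?_⟩
  tfae_have 1 → 2 := by
    intro h ρ ρ' hρ hρ'
    refine ((hpart ρ ρ' hρ hρ').out 0 1).1 fun s hs => ?_
    exact h s (Pool.Agent.TH942.SL.re_of_sector hρ hs.1 hs.2)
  tfae_have 2 → 3 := by
    intro h ρ₁ hρ₁
    refine ⟨(1 + ρ₁) / 2, ρ₁, by linarith, by linarith, by linarith, ?_⟩
    have h1 : (1 : ℝ) < (1 + ρ₁) / 2 := by linarith
    have h2 : (1 + ρ₁) / 2 < ρ₁ := by linarith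
    exact ((hpart ((1 + ρ₁) / 2) ρ₁ h1 h2).out 1 3).1 (h ((1 + ρ₁) / 2) ρ₁ h1 h2)
  tfae_have 3 → 1 := by
    intro h s hs
    obtain ⟨ρ₁, hρ₁, hs₁⟩ := Pool.Agent.TH942.SL.mem_sector hs
    obtain ⟨ρ, ρ', hρ, hρρ₁, hρ', hG⟩ := h ρ₁ hρ₁
    have hs1 : s ≠ 1 := by
      rintro rfl
      simp at hs
    have h3 : ∀ s ∈ Sector ρ, F s ≠ 0 := ((hpart ρ ρ' hρ hρ').out 0 3).2 hG
    refine h3 s ⟨hs1, hs₁.trans_le ?_⟩
    have hpi := Real.pi_pos
    exact div_le_div_of_nonneg_left hpi.le (by positivity) (by linarith)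
  tfae_finish

end Pool.Agent.Results.MP_553913_nt.SectorLaw
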